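import Pool.Agent.helper90.IV.Spec

/-!
# Row DGB: degrees after a blocking step
-/

set_option autoImplicit false

namespace Pool.Agent.helper99.IV

open Pool.Agent.IV

theorem le_cn {V α : Type} [Fintype V] (A : V → V → Prop) (a : α → V) (S : Finset V)
    (h : ∀ v ∈ S, ∀ k, A v (a k)) : S.card ≤ cn A a := by
  classical
  unfold cn
  refine Finset.card_le_card ?_
  intro v hv
  exact Finset.mem_filter.2 ⟨Finset.mem_univ v, h v hv⟩

open Classical in
theorem DGB : DGB_stmt := by
  intro I _ T s P Ch V K _ A lam gh W B y x₀ a hPr hGI hWB hCh hx₀ ha hagree hNH hdis w hw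
  simp only [Hm, Finset.mem_filter, Finset.mem_univ, true_and] at hx₀ ha
  by_cases hwW : w ∈ W
  · have h1 := hGI.deg w hwW
    have h2 : T.dO (W ∪ Bᶜ) w ≤ T.dO W w := by
      unfold Tr.dO
      apply Finset.card_le_card
      intro j hj
      rw [Finset.mem_filter] at hj ⊢
      exact ⟨hj.1, fun h => hj.2.1 (Finset.mem_union_left _ h), hj.2.2⟩
    omega
  · have hwB : w ∉ B := by
      rcases Finset.mem_union.1 hw with h | h
      · exact absurd h hwW
      · exact Finset.mem_compl.1 h
    by_contra hcon
    have hs : s ≤ T.ro w + T.dO (W ∪ Bᶜ) w := by omega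
    -- the live neighbours
    set D : Finset I := Finset.univ.filter fun j => j ∉ W ∪ Bᶜ ∧ T.nb w j with hD
    have hDmem : ∀ j ∈ D, j ∉ W ∧ j ∈ B ∧ T.nb w j := by
      intro j hj
      rw [hD, Finset.mem_filter] at hj
      refine ⟨fun h => hj.2.1 (Finset.mem_union_left _ h), ?_, hj.2.2⟩
      by_contra h
      exact hj.2.1 (Finset.mem_union_right _ (Finset.mem_compl.2 h))
    let f : Fin (T.ro w) ⊕ {j // j ∈ D} → I ⊕ T.R := fun t =>
      Sum.elim (fun i => (match gh ⟨w, i⟩ with
        | none => (Sum.inr ⟨w, i⟩ : I ⊕ T.R)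
        | some v => Sum.inl v)) (fun j => Sum.inl j.1) t
    have f1 : ∀ i : Fin (T.ro w), gh ⟨w, i⟩ = none → f (Sum.inl i) = Sum.inr ⟨w, i⟩ := by
      intro i hi
      simp only [f, Sum.elim_inl, hi]
    have f2 : ∀ (i : Fin (T.ro w)) (v : I), gh ⟨w, i⟩ = some v → f (Sum.inl i) = Sum.inl v := by
      intro i v hi
      simp only [f, Sum.elim_inl, hi]
    have f3 : ∀ j : {j // j ∈ D}, f (Sum.inr j) = Sum.inl j.1 := fun j => rfl
    have hinj : Function.Injective f := by
      rintro (i | j) (i' | j') h
      · rcases hi : gh ⟨w, i⟩ with _ | v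
        · rcases hi' : gh ⟨w, i'⟩ with _ | v'
          · rw [f1 i hi, f1 i' hi'] at h
            have h2 := Sum.inr_injective h
            have h3 : i = i' := by
              have := (Sigma.mk.inj_iff.1 h2).2
              exact eq_of_heq this
            rw [h3]
          · rw [f1 i hi, f2 i' v' hi'] at h
            exact absurd h (by simp)
        · rcases hi' : gh ⟨w, i'⟩ with _ | v'
          · rw [f2 i v hi, f1 i' hi'] at h
            exact absurd h (by simp)
          · rw [f2 i v hi, f2 i' v' hi'] at h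
            have h2 : v = v' := Sum.inl_injective h
            subst h2
            have h3 := hGI.once _ _ _ hi hi'
            have h4 : i = i' := eq_of_heq (Sigma.mk.inj_iff.1 h3).2
            rw [h4]
      · rcases hi : gh ⟨w, i⟩ with _ | v
        · rw [f1 i hi, f3 j'] at h
          exact absurd h (by simp)
        · rw [f2 i v hi, f3 j'] at h
          have h2 : v = j'.1 := Sum.inl_injective h
          exact absurd (h2 ▸ hGI.mem _ _ hi) (hDmem _ j'.2).1
      · rcases hi' : gh ⟨w, i'⟩ with _ | v'
        · rw [f1 i' hi', f3 j] at h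
          exact absurd h (by simp)
        · rw [f2 i' v' hi', f3 j] at h
          have h2 : j.1 = v' := Sum.inl_injective h
          exact absurd (h2 ▸ hGI.mem _ _ hi') (hDmem _ j.2).1
      · rw [f3 j, f3 j'] at h
        have h2 : j.1 = j'.1 := Sum.inl_injective h
        rw [Subtype.ext h2]
    have hlnb : ∀ t, lnb T gh w (f t) := by
      rintro (i | j)
      · rcases hi : gh ⟨w, i⟩ with _ | v
        · rw [f1 i hi]
          exact ⟨hi, rfl⟩
        · rw [f2 i v hi]
          exact hGI.gv _ _ hi
      · rw [f3 j]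
        exact (hDmem _ j.2).2.2
    have hval : ∀ (k : Fin P) t, A (a k w) (Sum.elim x₀ y (f t)) := by
      rintro k (i | j)
      · rcases hi : gh ⟨w, i⟩ with _ | v
        · rw [f1 i hi]
          exact (ha k).1.2 ⟨w, i⟩
        · rw [f2 i v hi, Sum.elim_inl, ← hx₀.2 _ _ hi]
          exact (ha k).1.2 ⟨w, i⟩
      · rw [f3 j, Sum.elim_inl, ← hagree k j.1 (hDmem _ j.2).2.1]
        rcases (hDmem _ j.2).2.2 with h | h
        · exact (ha k).1.1 _ _ h
        · exact hPr.symm _ _ ((ha k).1.1 _ _ h)
    -- choose `s` of them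
    have hcard : s ≤ Fintype.card (Fin (T.ro w) ⊕ {j // j ∈ D}) := by
      rw [Fintype.card_sum, Fintype.card_fin, Fintype.card_coe]
      exact hs
    let g : Fin s → Fin (T.ro w) ⊕ {j // j ∈ D} := fun k =>
      (Fintype.equivFin _).symm (Fin.castLE hcard k)
    have hg : Function.Injective g := by
      intro k k' h
      have h1 := (Fintype.equivFin _).symm.injective h
      exact Fin.castLE_injective hcard h1
    have h1 := hNH w (fun k => f (g k)) (hinj.comp hg) (fun k => hlnb _)
    have hinj2 : Function.Injective (fun k : Fin P => a k w) := by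
      intro k k' h
      by_contra hk
      have e1 : (Sum.inl (a k w) : Tk V K) ∈ tkL T lam gh Bᶜ y (a k) :=
        Finset.mem_union_left _ (Finset.mem_image.2 ⟨w, Finset.mem_compl.2 hwB, rfl⟩)
      have e2 : (Sum.inl (a k' w) : Tk V K) ∈ tkL T lam gh Bᶜ y (a k') :=
        Finset.mem_union_left _ (Finset.mem_image.2 ⟨w, Finset.mem_compl.2 hwB, rfl⟩)
      have h' : a k w = a k' w := h
      rw [← h'] at e2
      exact Finset.disjoint_left.1 (hdis k k' hk) e1 e2
    have h4 : (Finset.univ.image fun k : Fin P => a k w).card = P := by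
      rw [Finset.card_image_of_injective _ hinj2, Finset.card_univ, Fintype.card_fin]
    have h5 : ∀ v ∈ (Finset.univ.image fun k : Fin P => a k w),
        ∀ k' : Fin s, A v (Sum.elim x₀ y (f (g k'))) := by
      intro v hv k'
      obtain ⟨k, _, hk⟩ := Finset.mem_image.1 hv
      have h6 := hval k (g k')
      rw [← hk]
      exact h6
    have h2 : P ≤ cn A (fun k => Sum.elim x₀ y (f (g k))) := by
      have h7 := le_cn A (fun k => Sum.elim x₀ y (f (g k))) _ h5
      rw [h4] at h7
      exact h7
    omega

end Pool.Agent.helper99.IV
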