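import Pool.Agent.helper90.IV.Spec

/-!
# Row EN: the final state of the light machine gives a rainbow copy
-/

set_option autoImplicit false

namespace Pool.Agent.helper99.IV

open Pool.Agent.IV

open Classical in
theorem EN : EN_stmt := by
  intro I _ T s q V K _ A lam gh η _ hη hne hst
  obtain ⟨hGI, hcard⟩ := hst
  have hpos : (0 : ℝ) < (Hm T A gh).card := by exact_mod_cast hne.card_pos
  have hpos2 := lt_of_lt_of_le (mul_pos hη hpos) hcard
  have hpos3 := Nat.cast_pos.1 hpos2
  obtain ⟨⟨x, y⟩, hf⟩ := Finset.card_pos.1 hpos3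
  rw [Finset.mem_filter] at hf
  obtain ⟨hHm, hNice, z, hz, hdis⟩ := hf
  simp only [Hm, Finset.mem_filter, Finset.mem_univ, true_and] at hHm
  obtain ⟨hhom, hgh⟩ := hHm
  have hN1 := hNice.1
  -- membership of tokens
  have tW : ∀ (x' : I → V) (i : I), (Sum.inl (x' i) : Tk V K) ∈ tkW T lam Finset.univ y x' := by
    intro x' i
    exact Finset.mem_union_left _ (Finset.mem_image.2 ⟨i, Finset.mem_univ _, rfl⟩)
  have htc : ∀ e : T.Ed, T.tc Finset.univ e := by
    rintro (e | r)
    · exact Or.inl (Finset.mem_univ _)
    · exact Finset.mem_univ _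
  have tC : ∀ (x' : I → V) (l : Fin 2) (e : T.Ed),
      (Sum.inr (l, T.col lam l x' y e) : Tk V K) ∈ tkW T lam Finset.univ y x' := by
    intro x' l e
    exact Finset.mem_union_right _ (Finset.mem_image.2 ⟨(l, e),
      Finset.mem_filter.2 ⟨Finset.mem_univ _, htc e⟩, rfl⟩)
  refine ⟨z, y, fun j => (hz j).hom, ?_, ?_, ?_, ?_⟩
  · intro j i j' i' h
    by_cases hj : j = j'
    · subst hj
      exact ⟨rfl, (hz j).inj i (Finset.mem_univ _) i' (Finset.mem_univ _) h⟩
    · exfalso
      have h1 := tW (z j) i
      have h2 := tW (z j') i'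
      rw [← h] at h2
      exact Finset.disjoint_left.1 (hdis j j' hj) h1 h2
  · intro r r' h
    rcases hr : gh r with _ | w
    · rcases hr' : gh r' with _ | w'
      · have := hN1 (Sum.inr r) (Sum.inr r') hr hr' h
        exact Sum.inr_injective this
      · have h1 : y r' = x w' := hgh r' w' hr'
        have := hN1 (Sum.inr r) (Sum.inl w') hr trivial (h.trans h1)
        exact absurd this (by simp)
    · have h0 : y r = x w := hgh r w hr
      rcases hr' : gh r' with _ | w'
      · have := hN1 (Sum.inr r') (Sum.inl w) hr' trivial (h.symm.trans h0)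
        exact absurd this (by simp)
      · have h1 : y r' = x w' := hgh r' w' hr'
        have h2 := hN1 (Sum.inl w) (Sum.inl w') trivial trivial (h0.symm.trans (h.trans h1))
        have h3 : w = w' := Sum.inl_injective h2
        subst h3
        exact hGI.once r r' w hr hr'
  · intro j i r h
    have h1 := tW (z j) i
    have h2 : (Sum.inl (y r) : Tk V K) ∈ tkF T lam gh y x :=
      Finset.mem_union_left _ (Finset.mem_image.2 ⟨Sum.inr r, Finset.mem_univ _, rfl⟩)
    rw [← h] at h2
    exact Finset.disjoint_left.1 (hz j).fresh h1 h2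
  · intro l j e j' e' h
    by_cases hj : j = j'
    · subst hj
      exact ⟨rfl, (hz j).cinj l e e' (htc e) (htc e') h⟩
    · exfalso
      have h1 := tC (z j) l e
      have h2 := tC (z j') l e'
      rw [← h] at h2
      exact Finset.disjoint_left.1 (hdis j j' hj) h1 h2

end Pool.Agent.helper99.IV
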